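import Pool.Agent.R32.SA.Defs
import Pool.Agent.R32.SA.Upper
import Pool.Agent.R32.SA.Geo
import Pool.Agent.R32.SA.Lower

/-!
# MP_5402c6: the maximum edge number of semi-arc `k`-visibility graphs

`e k n` is the maximum number of edges of a semi-arc `k`-visibility graph on `n` vertices
(`Pool.Agent.R32.SA.e`, defined in `Pool/Agent/R32/SA/Defs.lean`).  We prove:

* `e k n = (k + 1) (2 n - (k + 2) / 2)` for all `k ≥ 0` and all `n ≥ 5 k + 5`;
* `(k + 1) (2 n - (k + 2) / 2) - (5 k + 6 - n) ^ 2 / 4 ≤ e k n ≤ (k + 1) (2 n - (k + 2) / 2)` for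
  `3 k + 3 ≤ n ≤ 5 k + 5`;
* `K_{3 k + 4}` is a semi-arc `k`-visibility graph: `e k (3 k + 4) = (3 k + 4).choose 2`;
* the conjectured formula `(k + 1) (2 n - (3 k + 6) / 2)` is exceeded by at least `k + 1` for
  every `k` and every `n ≥ 3 k + 4`.
-/

namespace Pool.Agent.Results.MP_5402c6_co.SemiArcMaxEdges

open Pool.Agent.R32.SA

theorem bdd (k n : ℕ) : ∀ m ∈ edgeNumbers k n, m ≤ n.choose 2 := by
  classical
  rintro m ⟨G, -, rfl⟩
  have h := G.card_edgeFinset_le_card_choose_two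
  rw [Fintype.card_fin] at h
  rwa [← Set.ncard_coe_finset, SimpleGraph.coe_edgeFinset] at h

theorem nonempty (k n : ℕ) : (edgeNumbers k n).Nonempty := by
  obtain ⟨s, a, K, rfl⟩ : ∃ s a K, n = s + a + K := ⟨0, 0, n, by omega⟩
  exact ⟨_, _, isSemiArcGraph_visGraph (fam s a K) (fam_α s a K) k, rfl⟩

theorem isGreatest (k n : ℕ) : IsGreatest (edgeNumbers k n) (e k n) :=
  ⟨Nat.sSup_mem (nonempty k n) ⟨_, bdd k n⟩, fun _ hm => le_csSup ⟨_, bdd k n⟩ hm⟩

theorem e_upper {k n : ℕ} (hn : k + 1 ≤ n) :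
    2 * e k n + (k + 1) * (k + 2) ≤ 4 * (k + 1) * n := by
  obtain ⟨⟨G, hG, hm⟩, -⟩ := isGreatest k n
  have h := edges_le_of_isSemiArcGraph hG
  rw [hm, Finset.sum_add_distrib, Finset.sum_const, Finset.card_range, smul_eq_mul] at h
  obtain ⟨m, rfl⟩ := Nat.exists_eq_add_of_le hn
  have h2 := sum_min (k + 1) m
  nlinarith

theorem e_lower (k s a : ℕ) :
    4 * (k + 1) * ((k + 1 + s) + (k + 1 + a) + (k + 1)) ≤
      2 * e k ((k + 1 + s) + (k + 1 + a) + (k + 1)) + (k + 1) * (k + 1 + 1)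
        + (k + 1 - s) * (k + 1 - s + 1) + (k + 1 - a) * (k + 1 - a + 1) := by
  have h1 := sum_gnum (k + 1) s a
  have h2 := sum_gnum_le (s := k + 1 + s) (a := k + 1 + a) (k := k) (by omega) (by omega)
  have h3 : (visGraph (fam (k + 1 + s) (k + 1 + a) (k + 1)) k).edgeSet.ncard ≤
      e k ((k + 1 + s) + (k + 1 + a) + (k + 1)) :=
    (isGreatest k _).2 ⟨_, isSemiArcGraph_visGraph _ (fam_α _ _ _) k, rfl⟩
  omega

/-- exact value for `n ≥ 5 k + 5` -/
theorem exact {k n : ℕ} (hn : 5 * k + 5 ≤ n) :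
    2 * e k n + (k + 1) * (k + 2) = 4 * (k + 1) * n := by
  apply le_antisymm (e_upper (by omega))
  obtain ⟨d, rfl⟩ := Nat.exists_eq_add_of_le hn
  have h := e_lower k (k + 1 + d) (k + 1)
  rw [show (k + 1 + (k + 1 + d)) + (k + 1 + (k + 1)) + (k + 1) = 5 * k + 5 + d by ring] at h
  have h1 : k + 1 - (k + 1 + d) = 0 := by omega
  have h2 : k + 1 - (k + 1) = 0 := by omega
  rw [h1, h2] at h
  linarith

/-- lower bound for `3 k + 3 ≤ n ≤ 5 k + 5` -/
theorem mid {k n : ℕ} (h3 : 3 * k + 3 ≤ n) (h5 : n ≤ 5 * k + 5) :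
    ((k : ℚ) + 1) * (2 * n - (k + 2) / 2) - (5 * k + 6 - n) ^ 2 / 4 ≤ (e k n : ℚ) := by
  obtain ⟨d, rfl⟩ := Nat.exists_eq_add_of_le h3
  obtain ⟨s, a, rfl, hsa⟩ : ∃ s a, d = s + a ∧ (a = s ∨ a = s + 1) := by
    rcases Nat.even_or_odd' d with ⟨t, ht | ht⟩
    · exact ⟨t, t, by omega, Or.inl rfl⟩
    · exact ⟨t, t + 1, by omega, Or.inr rfl⟩
  have h := e_lower k s a
  rw [show (k + 1 + s) + (k + 1 + a) + (k + 1) = 3 * k + 3 + (s + a) by ring] at h
  obtain ⟨x, hx⟩ : ∃ x, k + 1 = s + x := ⟨k + 1 - s, by omega⟩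
  obtain ⟨y, hy⟩ : ∃ y, k + 1 = a + y := ⟨k + 1 - a, by omega⟩
  rw [show k + 1 - s = x by omega, show k + 1 - a = y by omega] at h
  have hq : (4 : ℚ) * (k + 1) * (3 * k + 3 + (s + a)) ≤
      2 * (e k (3 * k + 3 + (s + a)) : ℚ) + (k + 1) * (k + 1 + 1) + x * (x + 1) + y * (y + 1) := by
    exact_mod_cast h
  have hxq : (k : ℚ) + 1 = s + x := by exact_mod_cast hx
  have hyq : (k : ℚ) + 1 = a + y := by exact_mod_cast hy
  have hxy : ((x : ℚ) - y) ^ 2 ≤ 1 := by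
    rcases hsa with rfl | rfl
    · have : (x : ℚ) = y := by linarith
      rw [this]
      norm_num
    · push_cast at hyq
      have : (x : ℚ) = y + 1 := by linarith
      rw [this]
      norm_num
  have hsum : (5 * (k : ℚ) + 6 - ((3 * k + 3 + (s + a) : ℕ) : ℚ)) = x + y + 1 := by
    push_cast
    linarith
  rw [hsum]
  push_cast
  nlinarith [hq, hxy]

theorem result :
    -- `e k n` is the maximum number of edges
    (∀ k n : ℕ, IsGreatest (edgeNumbers k n) (e k n)) ∧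
    -- its value for all `n ≥ 5 k + 5`
    (∀ k n : ℕ, 5 * k + 5 ≤ n → (e k n : ℚ) = (k + 1) * (2 * n - (k + 2) / 2)) ∧
    -- bounds for `3 k + 3 ≤ n ≤ 5 k + 5`
    (∀ k n : ℕ, 3 * k + 3 ≤ n → n ≤ 5 * k + 5 →
      ((k : ℚ) + 1) * (2 * n - (k + 2) / 2) - (5 * k + 6 - n) ^ 2 / 4 ≤ (e k n : ℚ) ∧
        (e k n : ℚ) ≤ (k + 1) * (2 * n - (k + 2) / 2)) ∧
    -- `K_{3 k + 4}` is a semi-arc `k`-visibility graph
    (∀ k : ℕ, e k (3 * k + 4) = (3 * k + 4).choose 2) ∧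
    (∀ k : ℕ, IsSemiArcGraph k (⊤ : SimpleGraph (Fin (3 * k + 4)))) ∧
    -- the conjectured formula fails for every `k` and every `n ≥ 3 k + 4`
    (∀ k n : ℕ, 3 * k + 4 ≤ n →
      ((k : ℚ) + 1) * (2 * n - (3 * k + 6) / 2) + (k + 1) ≤ (e k n : ℚ)) := by
  have hup : ∀ k n : ℕ, k + 1 ≤ n → (e k n : ℚ) ≤ (k + 1) * (2 * n - (k + 2) / 2) := by
    intro k n h
    have h1 : (2 : ℚ) * e k n + (k + 1) * (k + 2) ≤ 4 * (k + 1) * n := by
      exact_mod_cast e_upper h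
    linarith
  have hex : ∀ k n : ℕ, 5 * k + 5 ≤ n → (e k n : ℚ) = (k + 1) * (2 * n - (k + 2) / 2) := by
    intro k n h
    have h1 : (2 : ℚ) * e k n + (k + 1) * (k + 2) = 4 * (k + 1) * n := by
      exact_mod_cast exact h
    linarith
  have hK : ∀ k : ℕ, e k (3 * k + 4) = (3 * k + 4).choose 2 := by
    intro k
    apply le_antisymm
    · exact bdd k _ _ (isGreatest k _).1
    · have h := mid (k := k) (n := 3 * k + 4) (by omega) (by omega)
      have hc : (((3 * k + 4).choose 2 : ℕ) : ℚ) = (3 * k + 4) * (3 * k + 3) / 2 := by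
        rw [Nat.cast_choose_two]
        push_cast
        ring
      have h2 : (((3 * k + 4).choose 2 : ℕ) : ℚ) ≤ (e k (3 * k + 4) : ℚ) := by
        rw [hc]
        push_cast at h
        nlinarith
      exact_mod_cast h2
  refine ⟨isGreatest, hex, fun k n h3 h5 => ⟨mid h3 h5, hup k n (by omega)⟩, hK, ?_, ?_⟩
  · intro k
    classical
    obtain ⟨⟨G, hG, hm⟩, -⟩ := isGreatest k (3 * k + 4)
    rw [hK] at hm
    have hG' : G = ⊤ := by
      have h1 : G.edgeFinset.card = (Fintype.card (Fin (3 * k + 4))).choose 2 := by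
        rw [Fintype.card_fin, ← hm, ← Set.ncard_coe_finset, SimpleGraph.coe_edgeFinset]
      have h2 : G.edgeFinset = (⊤ : SimpleGraph (Fin (3 * k + 4))).edgeFinset := by
        apply Finset.eq_of_subset_of_card_le
        · exact SimpleGraph.edgeFinset_subset_edgeFinset.2 le_top
        · rw [h1, SimpleGraph.card_edgeFinset_top_eq_card_choose_two]
      exact SimpleGraph.edgeFinset_inj.1 h2
    rw [← hG']
    exact hG
  · intro k n h
    have hk0 : (0 : ℚ) ≤ k := Nat.cast_nonneg k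
    rcases Nat.lt_or_ge n (5 * k + 5) with h5 | h5
    · have h1 := mid (k := k) (n := n) (by omega) h5.le
      have hn : (3 * (k : ℚ) + 4) ≤ n := by exact_mod_cast h
      have hn5 : (n : ℚ) ≤ 5 * k + 5 := by exact_mod_cast h5.le
      have h2 : (5 * (k : ℚ) + 6 - n) ^ 2 ≤ (2 * (k + 1)) ^ 2 := by
        apply pow_le_pow_left₀ <;> linarith
      nlinarith
    · rw [hex k n h5]
      nlinarith

end Pool.Agent.Results.MP_5402c6_co.SemiArcMaxEdges
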